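import Mathlib
import Pool.Agent.H69.UL.Defs
import Pool.Agent.H69.UL.Poly3

/-!
# Unit linkage realizability in dimension `d ≥ 3` is `∃ℝ`-complete

The definitions (`DecProblem`, `Reduces`, `PTerm`, `Fml`, `ETR`, `FinGraph`, `adjMatrix`,
`UnitLinkage`, `ExistsR`, `ExistsRComplete`) are in `Pool/Agent/H69/UL/Defs.lean`.

Outline of the proof that the existential theory of the reals reduces to `UnitLinkage d`:

* `Formula`, `Gates`: a formula is turned into equations `y = 1`, `y + y' = y''`, `y * y' = y''`.
* `Siegel`, `Ball`, `Ball2`, `Ball3`: if such a system is solvable, it has a solution of at most
  doubly exponential size (perturbed minimizers of the sum of squares, a polynomial relation with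
  bounded coefficients from Siegel's lemma, Kronecker substitution, Cauchy's bound).
* `Scale`: after scaling by `4 * 16 ^ (-2 ^ q)` all numbers are at most `1 / 4` in absolute value.
* `Geom`, `Levels`, `Frame`, `Rails`: gadgets made of unit edges. A clique forces two points to
  be different, a cross-polytope forces distance `√2`, frames (orthonormal bases attached to points)
  are transported along edges, numbers `t` are points `t • e 0`, and addition and squaring of small
  numbers are forced by common neighbours.
* `Chain`, `Poly1`, `Poly2`, `Poly3`: the composed map is correct and computable in polynomial time.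
-/

set_option autoImplicit false

namespace Pool.Agent.Results.MP_f9087f_lc.Complete

open Pool.Agent.H69.UL

/-- For every `d ≥ 3`, unit linkage realizability in `ℝ^d` is `∃ℝ`-complete. -/
theorem result : ∀ d : ℕ, 3 ≤ d → ExistsRComplete (UnitLinkage d) :=
  fun _ hd => unitLinkage_complete hd

end Pool.Agent.Results.MP_f9087f_lc.Complete
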